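import Pool.Agent.H6.T27.Check

/-!
# Sets of 27 numbers are not determined by their sums of three

For `n = 27` two different *multisets* with the same sums of three elements were found by Boman and
Linusson (1996).  Here: a family with six free complex parameters (seven with translations), whose
general member consists of `27` distinct numbers, disjoint from its negative; and two different
sets of `27` integers between `0` and `42`.

The family is the set of weights of the 27-dimensional representation of `E₆`: the third exterior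
power of this representation is self-dual, the representation itself is not.
-/

namespace Pool.Agent.Results.MP_141b6b_nt.TwentySevenSets

open Pool.Agent.H6.T27

/-- The multiset of the sums of three elements (at different positions) of `X`. -/
def threeSums (X : Multiset ℂ) : Multiset ℂ := (X.powersetCard 3).map Multiset.sum

/-- The 27 numbers `y_i + s`, `y_i - s` (`1 ≤ i ≤ 6`) and `-(y_i + y_j)` (`1 ≤ i < j ≤ 6`). -/
def X27 (y : Fin 6 → ℂ) (s : ℂ) : Multiset ℂ :=
  (Finset.univ : Finset (Fin 6)).val.map (fun i => y i + s) +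
    (Finset.univ : Finset (Fin 6)).val.map (fun i => y i - s) +
    ((Finset.univ : Finset (Fin 6 × Fin 6)).filter (fun p => p.1 < p.2)).val.map
      (fun p => -(y p.1 + y p.2))

/-- evaluation of the coordinate vectors -/
noncomputable def ev (y : Fin 6 → ℂ) (s : ℂ) : V →+ ℂ where
  toFun v := v.1 * y 0 + v.2.1 * y 1 + v.2.2.1 * y 2 + v.2.2.2.1 * y 3 + v.2.2.2.2.1 * y 4 +
    v.2.2.2.2.2 * s
  map_zero' := by simp
  map_add' a b := by
    simp only [Prod.fst_add, Prod.snd_add, Int.cast_add]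
    ring

theorem ev_apply (y : Fin 6 → ℂ) (s : ℂ) (v : V) : ev y s v =
    v.1 * y 0 + v.2.1 * y 1 + v.2.2.1 * y 2 + v.2.2.2.1 * y 3 + v.2.2.2.2.1 * y 4 +
    v.2.2.2.2.2 * s := rfl

/-- the 27 weights in another order -/
def W' : List V :=
  [(1,0,0,0,0,1), (0,1,0,0,0,1), (0,0,1,0,0,1), (0,0,0,1,0,1), (0,0,0,0,1,1), (-1,-1,-1,-1,-1,1),
   (1,0,0,0,0,-1), (0,1,0,0,0,-1), (0,0,1,0,0,-1), (0,0,0,1,0,-1), (0,0,0,0,1,-1),
   (-1,-1,-1,-1,-1,-1),
   (-1,-1,0,0,0,0), (-1,0,-1,0,0,0), (-1,0,0,-1,0,0), (-1,0,0,0,-1,0), (0,1,1,1,1,0),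
   (0,-1,-1,0,0,0), (0,-1,0,-1,0,0), (0,-1,0,0,-1,0), (1,0,1,1,1,0),
   (0,0,-1,-1,0,0), (0,0,-1,0,-1,0), (1,1,0,1,1,0),
   (0,0,0,-1,-1,0), (1,1,1,0,1,0),
   (1,1,1,1,0,0)]

theorem W_perm : W'.Perm W := by decide +kernel

theorem univ6 : (Finset.univ : Finset (Fin 6)).val = (([0, 1, 2, 3, 4, 5] : List (Fin 6)) : Multiset (Fin 6)) := by
  decide

theorem pairs6 : ((Finset.univ : Finset (Fin 6 × Fin 6)).filter (fun p => p.1 < p.2)).val =
    (([(0, 1), (0, 2), (0, 3), (0, 4), (0, 5), (1, 2), (1, 3), (1, 4), (1, 5), (2, 3), (2, 4),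
      (2, 5), (3, 4), (3, 5), (4, 5)] : List (Fin 6 × Fin 6)) : Multiset (Fin 6 × Fin 6)) := by
  decide +kernel

theorem X27_eq (y : Fin 6 → ℂ) (s : ℂ) (hy : ∑ i, y i = 0) :
    X27 y s = ((↑W : Multiset V)).map (ev y s) := by
  have h5 : y 5 = -(y 0 + y 1 + y 2 + y 3 + y 4) := by
    rw [Fin.sum_univ_six] at hy
    linear_combination hy
  rw [← Multiset.coe_eq_coe.mpr W_perm, X27, univ6, pairs6]
  simp only [Multiset.map_coe, List.map_cons, List.map_nil, Multiset.coe_add, List.cons_append,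
    List.nil_append, W', h5]
  congr 1
  simp only [ev_apply, List.cons.injEq, and_true]
  push_cast
  refine ⟨?_, ?_, ?_, ?_, ?_, ?_, ?_, ?_, ?_, ?_, ?_, ?_, ?_, ?_, ?_, ?_, ?_, ?_, ?_, ?_, ?_, ?_,
    ?_, ?_, ?_, ?_, ?_⟩ <;> ring

theorem threeSums_map (f : V →+ ℂ) (M : Multiset V) :
    threeSums (M.map f) = ((M.powersetCard 3).map Multiset.sum).map f := by
  rw [threeSums, Multiset.powersetCard_map, Multiset.map_map, Multiset.map_map]
  refine Multiset.map_congr rfl fun t _ => ?_
  simp only [Function.comp]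
  exact (map_multiset_sum f t).symm

theorem threeSums_neg (X : Multiset ℂ) :
    threeSums (X.map Neg.neg) = (threeSums X).map Neg.neg := by
  rw [threeSums, threeSums, Multiset.powersetCard_map, Multiset.map_map, Multiset.map_map]
  refine Multiset.map_congr rfl fun t _ => ?_
  simp only [Function.comp]
  exact Multiset.sum_map_neg' t

theorem threeSums_W : ((↑W : Multiset V).powersetCard 3).map Multiset.sum = (↑S3 : Multiset V) := by
  rw [Multiset.powersetCard_coe, Multiset.map_coe, List.map_map, S3]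
  congr 1

theorem family (y : Fin 6 → ℂ) (s : ℂ) (hy : ∑ i, y i = 0) :
    threeSums (X27 y s) = threeSums ((X27 y s).map Neg.neg) := by
  rw [threeSums_neg, X27_eq y s hy, threeSums_map, threeSums_W]
  conv_lhs => rw [Multiset.coe_eq_coe.mpr S3_perm]
  rw [← Multiset.map_coe, Multiset.map_map, Multiset.map_map]
  refine Multiset.map_congr rfl fun v _ => ?_
  simp

theorem card_X27 (y : Fin 6 → ℂ) (s : ℂ) : Multiset.card (X27 y s) = 27 := by
  rw [X27, univ6, pairs6]
  simp

theorem ev_inj (y : Fin 6 → ℂ) (s : ℂ)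
    (hl : LinearIndependent ℚ ![y 0, y 1, y 2, y 3, y 4, s]) : Function.Injective (ev y s) := by
  rw [injective_iff_map_eq_zero]
  intro v hv
  rw [Fintype.linearIndependent_iff] at hl
  have h := hl ![(v.1 : ℚ), v.2.1, v.2.2.1, v.2.2.2.1, v.2.2.2.2.1, v.2.2.2.2.2] (by
    rw [Fin.sum_univ_six]
    simp only [Matrix.cons_val, Rat.smul_def]
    rw [ev_apply] at hv
    push_cast
    exact hv)
  have h0 := h 0
  have h1 := h 1
  have h2 := h 2
  have h3 := h 3
  have h4 := h 4
  have h5 := h 5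
  simp only [Matrix.cons_val, Int.cast_eq_zero] at h0 h1 h2 h3 h4 h5
  obtain ⟨a, b, c, d, e, f⟩ := v
  simp only at h0 h1 h2 h3 h4 h5
  subst h0 h1 h2 h3 h4 h5
  rfl

theorem W_nodup : (W ++ W.map Neg.neg).Nodup := by decide +kernel

theorem generic (y : Fin 6 → ℂ) (s : ℂ) (hy : ∑ i, y i = 0)
    (hl : LinearIndependent ℚ ![y 0, y 1, y 2, y 3, y 4, s]) :
    (X27 y s + (X27 y s).map Neg.neg).Nodup := by
  have hi := ev_inj y s hl
  have : X27 y s + (X27 y s).map Neg.neg =
      ((↑(W ++ W.map Neg.neg) : Multiset V)).map (ev y s) := by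
    rw [X27_eq y s hy, ← Multiset.coe_add, Multiset.map_add, Multiset.map_map, ← Multiset.map_coe,
      Multiset.map_map]
    congr 1
    refine Multiset.map_congr rfl fun v _ => ?_
    simp
  rw [this]
  exact Multiset.Nodup.map hi (Multiset.coe_nodup.mpr W_nodup)

theorem threeSums_add (X : Multiset ℂ) (c : ℂ) :
    threeSums (X.map (fun x => x + c)) = (threeSums X).map (fun x => x + 3 * c) := by
  rw [threeSums, threeSums, Multiset.powersetCard_map, Multiset.map_map, Multiset.map_map]
  refine Multiset.map_congr rfl fun t ht => ?_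
  simp only [Function.comp]
  rw [Multiset.sum_map_add, Multiset.map_id', Multiset.map_const', Multiset.sum_replicate,
    (Multiset.mem_powersetCard.mp ht).2, nsmul_eq_mul]
  norm_num

/-- 27 integers between 0 and 42 -/
def A27 : Finset ℤ := {0, 3, 6, 8, 10, 12, 13, 14, 15, 16, 17, 19, 20, 21, 22, 23, 24, 26, 27, 28,
  29, 31, 32, 34, 36, 40, 41}

/-- the values 42 - a -/
def B27 : Finset ℤ := {1, 2, 6, 8, 10, 11, 13, 14, 15, 16, 18, 19, 20, 21, 22, 23, 25, 26, 27, 28,
  29, 30, 32, 34, 36, 39, 42}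

/-- the special parameters -/
def yy : Fin 6 → ℂ := ![-14, -6, -5, 4, 7, 14]

/-- evaluation at the special parameters -/
def evZ (v : V) : ℤ :=
  v.1 * (-14) + v.2.1 * (-6) + v.2.2.1 * (-5) + v.2.2.2.1 * 4 + v.2.2.2.2.1 * 7 + v.2.2.2.2.2

theorem ev_evZ (v : V) : ev yy 1 v = (evZ v : ℂ) := by
  rw [ev_apply, evZ, yy]
  simp only [Matrix.cons_val]
  push_cast
  ring

theorem A_eq : A27.val = ((W.map fun v => evZ v + 21 : List ℤ) : Multiset ℤ) := by
  decide +kernel

theorem B_eq : B27.val = ((W.map fun v => 21 - evZ v : List ℤ) : Multiset ℤ) := by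
  decide +kernel

theorem yy_sum : ∑ i, yy i = 0 := by
  rw [Fin.sum_univ_six, yy]
  simp only [Matrix.cons_val]
  norm_num

theorem A_cast : A27.val.map (fun n : ℤ => (n : ℂ)) = (X27 yy 1).map (fun x => x + 21) := by
  rw [A_eq, X27_eq yy 1 yy_sum, Multiset.map_map, Multiset.map_coe, List.map_map,
    Multiset.map_coe]
  congr 1
  refine List.map_congr_left fun v _ => ?_
  simp only [Function.comp, ev_evZ]
  push_cast
  ring

theorem B_cast : B27.val.map (fun n : ℤ => (n : ℂ)) =
    ((X27 yy 1).map Neg.neg).map (fun x => x + 21) := by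
  rw [B_eq, X27_eq yy 1 yy_sum, Multiset.map_map, Multiset.map_map, Multiset.map_coe,
    List.map_map, Multiset.map_coe]
  congr 1
  refine List.map_congr_left fun v _ => ?_
  simp only [Function.comp, ev_evZ]
  push_cast
  ring

/-- **Sets of 27 numbers are not determined by their sums of three elements.** -/
theorem result :
    (∀ (y : Fin 6 → ℂ) (s : ℂ), ∑ i, y i = 0 →
      Multiset.card (X27 y s) = 27 ∧
      threeSums (X27 y s) = threeSums ((X27 y s).map Neg.neg) ∧
      (LinearIndependent ℚ ![y 0, y 1, y 2, y 3, y 4, s] →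
        (X27 y s + (X27 y s).map Neg.neg).Nodup)) ∧
    (∃ A B : Finset ℤ, A ≠ B ∧ A.card = 27 ∧ B.card = 27 ∧
      A ⊆ Finset.Icc 0 42 ∧ B ⊆ Finset.Icc 0 42 ∧
      threeSums (A.val.map (fun n : ℤ => (n : ℂ))) =
        threeSums (B.val.map (fun n : ℤ => (n : ℂ)))) := by
  refine ⟨fun y s hy => ⟨card_X27 y s, family y s hy, generic y s hy⟩, A27, B27, by decide +kernel,
    by decide +kernel, by decide +kernel, by decide +kernel, by decide +kernel, ?_⟩
  rw [A_cast, B_cast, threeSums_add, threeSums_add, family yy 1 yy_sum]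

end Pool.Agent.Results.MP_141b6b_nt.TwentySevenSets
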